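import Mathlib

set_option autoImplicit false

namespace Pool.Agent.Results.MP_286f1f_ag.GorensteinBound

open IsLocalRing

universe u v

section Len

variable {R : Type u} [CommRing R]

/-- The power of an ideal generated by a finite family is generated by the monomials. -/
lemma span_pow_eq {d : ℕ} (x : Fin d → R) (n : ℕ) :
    Ideal.span (Set.range x) ^ n
      = Ideal.span (Set.range fun s : Sym (Fin d) n => ((s : Multiset (Fin d)).map x).prod) := by
  induction n with
  | zero =>
    rw [pow_zero, Ideal.one_eq_top, eq_comm, Ideal.eq_top_iff_one]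
    apply Ideal.subset_span
    refine ⟨⟨0, rfl⟩, ?_⟩
    change (Multiset.map x 0).prod = 1
    simp
  | succ n ih =>
    rw [pow_succ', ih, Ideal.span_mul_span']
    apply le_antisymm
    · rw [Ideal.span_le]
      rintro _ ⟨_, ⟨i, rfl⟩, _, ⟨s, rfl⟩, rfl⟩
      apply Ideal.subset_span
      refine ⟨i ::ₛ s, ?_⟩
      simp only [Sym.coe_cons, Multiset.map_cons, Multiset.prod_cons]
    · rw [Ideal.span_le]
      rintro _ ⟨s, rfl⟩
      apply Ideal.subset_span
      obtain ⟨i, t, rfl⟩ := s.exists_eq_cons_of_succ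
      refine ⟨x i, ⟨i, rfl⟩, _, ⟨t, rfl⟩, ?_⟩
      simp only [Sym.coe_cons, Multiset.map_cons, Multiset.prod_cons]

/-- Length of `R/K` splits along `K ≤ L`. -/
lemma length_quot_eq (K L : Ideal R) (h : K ≤ L) :
    Module.length R (R ⧸ K)
      = Module.length R (Submodule.map K.mkQ L) + Module.length R (R ⧸ L) := by
  refine Module.length_eq_add_of_exact (Submodule.map K.mkQ L).subtype
    (Submodule.mapQ K L LinearMap.id (by simpa using h)) (Submodule.subtype_injective _) ?_ ?_
  · intro y
    obtain ⟨y, rfl⟩ := Submodule.mkQ_surjective _ y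
    exact ⟨Submodule.Quotient.mk y, by simp⟩
  · intro y
    obtain ⟨y, rfl⟩ := Submodule.mkQ_surjective _ y
    simp only [Submodule.mkQ_apply, Submodule.mapQ_apply, LinearMap.id_apply,
      Submodule.Quotient.mk_eq_zero, Set.mem_range, Subtype.exists]
    constructor
    · intro hy
      exact ⟨_, Submodule.mem_map_of_mem hy, rfl⟩
    · rintro ⟨a, ⟨b, hb, rfl⟩, hab⟩
      simp only [Submodule.mkQ_apply, Submodule.subtype_apply] at hab
      rw [Submodule.Quotient.eq] at hab
      have : y = b - (b - y) := by ring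
      rw [this]
      exact L.sub_mem hb (h hab)

/-- The length of `R/I^n` when `I` has `d` generators. -/
lemma length_quot_pow_le {d : ℕ} (hd : 1 ≤ d) (x : Fin d → R) (n : ℕ) :
    Module.length R (R ⧸ (Ideal.span (Set.range x) ^ n))
      ≤ ((n + d - 1).choose d : ℕ) * Module.length R (R ⧸ Ideal.span (Set.range x)) := by
  set I := Ideal.span (Set.range x) with hI
  induction n with
  | zero =>
    have : Subsingleton (R ⧸ I ^ 0) := by
      rw [pow_zero, Ideal.one_eq_top]
      infer_instance
    rw [Module.length_eq_zero]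
    exact zero_le
  | succ n ih =>
    have hle : I ^ (n+1) ≤ I ^ n := Ideal.pow_le_pow_right (Nat.le_succ n)
    rw [length_quot_eq _ _ hle]
    -- the graded piece
    have key : Module.length R (Submodule.map (I ^ (n+1)).mkQ (I ^ n))
        ≤ ((d + n - 1).choose n : ℕ) * Module.length R (R ⧸ I) := by
      classical
      let m : Sym (Fin d) n → R := fun s => ((s : Multiset (Fin d)).map x).prod
      have hpow : I ^ n = Ideal.span (Set.range m) := by rw [hI, span_pow_eq]
      have hm : ∀ s, m s ∈ I ^ n := by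
        intro s
        rw [hpow]
        exact Ideal.subset_span ⟨s, rfl⟩
      have hker : ∀ s, I ≤ LinearMap.ker
          ((Submodule.mkQ (I ^ (n+1))).comp (LinearMap.toSpanSingleton R R (m s))) := by
        intro s a ha
        simp only [LinearMap.mem_ker, LinearMap.comp_apply, LinearMap.toSpanSingleton_apply,
          Submodule.mkQ_apply, Submodule.Quotient.mk_eq_zero, smul_eq_mul]
        rw [pow_succ']
        exact Ideal.mul_mem_mul ha (hm s)
      let ψ : Sym (Fin d) n → (R ⧸ I) →ₗ[R] (R ⧸ I ^ (n+1)) := fun s =>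
        Submodule.liftQ I ((Submodule.mkQ (I ^ (n+1))).comp (LinearMap.toSpanSingleton R R (m s)))
          (hker s)
      have hψ : ∀ s a, ψ s (Submodule.Quotient.mk a) = (Submodule.mkQ (I ^ (n+1))) (a * m s) :=
        fun s a => rfl
      let Φ : (Sym (Fin d) n → R ⧸ I) →ₗ[R] (R ⧸ I ^ (n+1)) :=
        ∑ s, (ψ s).comp (LinearMap.proj s)
      have hr : LinearMap.range Φ = Submodule.map (I ^ (n+1)).mkQ (I ^ n) := by
        apply le_antisymm
        · rintro _ ⟨f, rfl⟩
          simp only [Φ, LinearMap.sum_apply, LinearMap.comp_apply, LinearMap.proj_apply]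
          apply Submodule.sum_mem
          intro s _
          obtain ⟨a, ha⟩ := Submodule.mkQ_surjective _ (f s)
          rw [← ha, Submodule.mkQ_apply, hψ]
          exact Submodule.mem_map_of_mem ((I ^ n).mul_mem_left _ (hm s))
        · rw [Submodule.map_le_iff_le_comap]
          conv_lhs => rw [hpow, ← Ideal.submodule_span_eq]
          rw [Submodule.span_le]
          rintro _ ⟨s, rfl⟩
          refine ⟨Pi.single s (Submodule.Quotient.mk 1), ?_⟩
          simp only [Φ, LinearMap.sum_apply, LinearMap.comp_apply, LinearMap.proj_apply]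
          rw [Finset.sum_eq_single s]
          · rw [Pi.single_eq_same, hψ, one_mul]
          · intro b _ hb
            rw [Pi.single_eq_of_ne hb, map_zero]
          · simp
      rw [← hr]
      calc Module.length R (LinearMap.range Φ)
          ≤ Module.length R (Sym (Fin d) n → R ⧸ I) :=
            Module.length_le_of_surjective Φ.rangeRestrict (LinearMap.surjective_rangeRestrict Φ)
        _ = ((d + n - 1).choose n : ℕ) * Module.length R (R ⧸ I) := by
            rw [Module.length_pi]
            congr 1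
            rw [ENat.card_eq_coe_fintype_card, Sym.card_sym_eq_choose, Fintype.card_fin]
    have hch : (n + 1 + d - 1).choose d = (d + n - 1).choose n + (n + d - 1).choose d := by
      obtain ⟨e, rfl⟩ : ∃ e, d = e + 1 := ⟨d - 1, by omega⟩
      have h1 : n + 1 + (e+1) - 1 = (n + e) + 1 := by omega
      have h2 : e + 1 + n - 1 = n + e := by omega
      have h3 : n + (e + 1) - 1 = n + e := by omega
      rw [h1, h2, h3, Nat.choose_succ_succ]
      congr 1
      rw [Nat.choose_symm_add]
    rw [hch]
    push_cast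
    rw [add_mul]
    exact add_le_add key ih

end Len

section Soc

variable {R : Type u} [CommRing R]

/-- If every simple module has `Hom` of length at most one into `M`, then
`Hom(N, M)` has length at most that of `N`, for every `N` of finite length. -/
lemma length_hom_le {M : Type v} [AddCommGroup M] [Module R M]
    (hM : ∀ (S : Type u) [AddCommGroup S] [Module R S], IsSimpleModule R S →
      Module.length R (S →ₗ[R] M) ≤ 1)
    (N : Type u) [AddCommGroup N] [Module R N] (hN : IsFiniteLength R N) :
    Module.length R (N →ₗ[R] M) ≤ Module.length R N := by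
  induction hN with
  | of_subsingleton =>
    rename_i N _ _ _
    have : Subsingleton (N →ₗ[R] M) := ⟨fun f g => by ext x; simp [Subsingleton.elim x 0]⟩
    rw [Module.length_eq_zero]
    exact zero_le
  | of_simple_quotient hN' ih =>
    rename_i N _ _ N' hs
    -- exact sequence 0 → Hom(N/N', M) → Hom(N, M) → Hom(N', M)
    have h1 : Module.length R (N →ₗ[R] M)
        ≤ Module.length R ((N ⧸ N') →ₗ[R] M) + Module.length R (N' →ₗ[R] M) := by
      let f : ((N ⧸ N') →ₗ[R] M) →ₗ[R] (N →ₗ[R] M) := LinearMap.lcomp R M N'.mkQ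
      let g : (N →ₗ[R] M) →ₗ[R] (N' →ₗ[R] M) := LinearMap.lcomp R M N'.subtype
      have hf : Function.Injective f := by
        intro a b hab
        ext x
        have := congrArg (fun h => h x) hab
        simpa [f] using this
      have hex : Function.Exact f g.rangeRestrict := by
        intro h
        constructor
        · intro hh
          have hh' : h.comp N'.subtype = 0 := congrArg Subtype.val hh
          refine ⟨N'.liftQ h ?_, ?_⟩
          · intro x hx
            have := congrArg (fun k => k ⟨x, hx⟩) hh'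
            simpa using this
          · ext x
            simp [f]
        · rintro ⟨k, rfl⟩
          apply Subtype.ext
          ext x
          change k (Submodule.Quotient.mk (x : N)) = 0
          rw [(Submodule.Quotient.mk_eq_zero N').mpr x.2, map_zero]
      rw [Module.length_eq_add_of_exact f g.rangeRestrict hf
        (LinearMap.surjective_rangeRestrict g) hex]
      gcongr
      exact Module.length_le_of_injective (LinearMap.range g).subtype (Submodule.subtype_injective _)
    have h2 : Module.length R N = Module.length R N' + Module.length R (N ⧸ N') :=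
      Module.length_eq_add_of_exact N'.subtype N'.mkQ (Submodule.subtype_injective _)
        (Submodule.mkQ_surjective _) (LinearMap.exact_subtype_mkQ N')
    rw [h2, add_comm (Module.length R N')]
    refine h1.trans (add_le_add ?_ ih)
    rw [Module.length_eq_one R (N ⧸ N')]
    exact hM _ hs

/-- In a local ring, if `K` is irreducible, then `Hom(S, R/K)` has length at most one for every
simple module `S`. -/
lemma length_hom_simple_le [IsLocalRing R] (K : Ideal R) (hK : InfIrred K)
    (S : Type u) [AddCommGroup S] [Module R S] (hS : IsSimpleModule R S) :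
    Module.length R (S →ₗ[R] (R ⧸ K)) ≤ 1 := by
  -- S is generated by one element s with annihilator the maximal ideal
  obtain ⟨s, hs⟩ : ∃ s : S, s ≠ 0 := by
    have := hS.nontrivial
    exact exists_ne 0
  have hgen : ∀ t : S, ∃ r : R, r • s = t := by
    have := IsSimpleModule.toSpanSingleton_surjective R hs
    intro t
    obtain ⟨r, hr⟩ := this t
    exact ⟨r, by simpa using hr⟩
  have hann : ∀ r ∈ maximalIdeal R, r • s = 0 := by
    intro r hr
    by_contra hne
    obtain ⟨t, ht⟩ := IsSimpleModule.toSpanSingleton_surjective R hne s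
    have h1 : (t * r) • s = s := by simpa [mul_smul] using ht
    have h2 : (1 - t * r) • s = 0 := by rw [sub_smul, one_smul, h1, sub_self]
    have h3 : IsUnit (1 - t * r) := by
      by_contra hu
      have h4 : (1 - t * r) ∈ maximalIdeal R := hu
      have h5 : (1 : R) ∈ maximalIdeal R := by
        have := (maximalIdeal R).add_mem h4 ((maximalIdeal R).mul_mem_left t hr)
        simpa using this
      exact (Ideal.ne_top_iff_one _).mp (maximalIdeal.isMaximal R).ne_top h5
    obtain ⟨w, hw⟩ := h3
    apply hs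
    have : (↑w⁻¹ * (1 - t * r)) • s = 0 := by rw [mul_smul, h2, smul_zero]
    rw [← hw] at this
    simp at this
    exact this
  -- evaluation at s is injective into the socle
  by_cases htriv : Subsingleton (S →ₗ[R] (R ⧸ K))
  · rw [Module.length_eq_zero]
    exact zero_le
  have hnt : Nontrivial (S →ₗ[R] (R ⧸ K)) := not_subsingleton_iff_nontrivial.mp htriv
  have hsimple : IsSimpleModule R (S →ₗ[R] (R ⧸ K)) := by
    -- any nonzero f generates
    have hkey : ∀ f g : S →ₗ[R] (R ⧸ K), f ≠ 0 → g ≠ 0 → ∃ r : R, g = r • f := by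
      intro f g hf hg
      have hfs : f s ≠ 0 := by
        intro h0
        apply hf
        ext t
        obtain ⟨r, rfl⟩ := hgen t
        simp [h0]
      have hgs : g s ≠ 0 := by
        intro h0
        apply hg
        ext t
        obtain ⟨r, rfl⟩ := hgen t
        simp [h0]
      obtain ⟨a, ha⟩ := Submodule.mkQ_surjective K (f s)
      obtain ⟨b, hb⟩ := Submodule.mkQ_surjective K (g s)
      have haK : a ∉ K := by
        intro h
        apply hfs
        rw [← ha, Submodule.mkQ_apply, Submodule.Quotient.mk_eq_zero]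
        exact h
      have hbK : b ∉ K := by
        intro h
        apply hgs
        rw [← hb, Submodule.mkQ_apply, Submodule.Quotient.mk_eq_zero]
        exact h
      have hna : K ⊔ Ideal.span {a} ≠ K := by
        intro h
        apply haK
        rw [← h]
        exact Ideal.mem_sup_right (Ideal.mem_span_singleton_self a)
      have hnb : K ⊔ Ideal.span {b} ≠ K := by
        intro h
        apply hbK
        rw [← h]
        exact Ideal.mem_sup_right (Ideal.mem_span_singleton_self b)
      have hinf : (K ⊔ Ideal.span {a}) ⊓ (K ⊔ Ideal.span {b}) ≠ K := by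
        intro h
        rcases hK.2 h with h | h
        · exact hna h
        · exact hnb h
      have hlt : K < (K ⊔ Ideal.span {a}) ⊓ (K ⊔ Ideal.span {b}) :=
        lt_of_le_of_ne (le_inf le_sup_left le_sup_left) (Ne.symm hinf)
      obtain ⟨z, ⟨hz1, hz2⟩, hz3⟩ := SetLike.exists_of_lt hlt
      obtain ⟨k1, hk1, a', ha', hz1'⟩ := Submodule.mem_sup.mp hz1
      obtain ⟨k2, hk2, b', hb', hz2'⟩ := Submodule.mem_sup.mp hz2
      obtain ⟨α, rfl⟩ := Ideal.mem_span_singleton'.mp ha'
      obtain ⟨β, rfl⟩ := Ideal.mem_span_singleton'.mp hb'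
      -- mod K : α • f s = β • g s ≠ 0
      have e1 : α • f s = Submodule.mkQ K z := by
        rw [← ha, ← map_smul, smul_eq_mul, ← hz1', map_add]
        simp [Ideal.Quotient.eq_zero_iff_mem.mpr hk1]
      have e2 : β • g s = Submodule.mkQ K z := by
        rw [← hb, ← map_smul, smul_eq_mul, ← hz2', map_add]
        simp [Ideal.Quotient.eq_zero_iff_mem.mpr hk2]
      have hzne : Submodule.mkQ K z ≠ 0 := by
        rw [Submodule.mkQ_apply, Ne, Submodule.Quotient.mk_eq_zero]
        exact hz3
      have hβ : IsUnit β := by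
        by_contra hu
        have hβm : β ∈ maximalIdeal R := hu
        apply hzne
        rw [← e2, ← map_smul, hann β hβm, map_zero]
      obtain ⟨w, rfl⟩ := hβ
      refine ⟨↑w⁻¹ * α, ?_⟩
      ext t
      obtain ⟨r, rfl⟩ := hgen t
      rw [map_smul, LinearMap.smul_apply, map_smul, smul_comm _ r]
      congr 1
      rw [mul_smul, e1, ← e2, ← mul_smul, Units.inv_mul, one_smul]
    rw [isSimpleModule_iff_toSpanSingleton_surjective]
    refine ⟨hnt, ?_⟩
    intro f hf g
    by_cases hg : g = 0
    · exact ⟨0, by simp [hg]⟩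
    · obtain ⟨r, hr⟩ := hkey f g hf hg
      exact ⟨r, by simpa using hr.symm⟩
  rw [Module.length_eq_one R (S →ₗ[R] (R ⧸ K))]

/-- The duality estimate. -/
lemma length_quot_le_add [IsLocalRing R] (K A B : Ideal R) (hK : InfIrred K)
    (hAB : A * B ≤ K) (hB : IsFiniteLength R (R ⧸ B)) :
    Module.length R (R ⧸ K) ≤ Module.length R (R ⧸ A) + Module.length R (R ⧸ B) := by
  have h1 : Module.length R (R ⧸ K)
      = Module.length R (Submodule.map K.mkQ (A ⊔ K)) + Module.length R (R ⧸ (A ⊔ K)) :=
    length_quot_eq K (A ⊔ K) le_sup_right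
  have h2 : Module.length R (R ⧸ (A ⊔ K)) ≤ Module.length R (R ⧸ A) := by
    refine Module.length_le_of_surjective
      (Submodule.mapQ A (A ⊔ K) LinearMap.id (by simp)) ?_
    intro y
    obtain ⟨y, rfl⟩ := Submodule.mkQ_surjective _ y
    exact ⟨Submodule.Quotient.mk y, by simp⟩
  have h3 : Module.length R (Submodule.map K.mkQ (A ⊔ K))
      ≤ Module.length R ((R ⧸ B) →ₗ[R] (R ⧸ K)) := by
    have hz : ∀ z : Submodule.map K.mkQ (A ⊔ K), B ≤ LinearMap.ker
        (LinearMap.toSpanSingleton R (R ⧸ K) (z : R ⧸ K)) := by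
      rintro ⟨_, ⟨a, ha, rfl⟩⟩ b hb
      simp only [LinearMap.mem_ker, LinearMap.toSpanSingleton_apply]
      rw [← map_smul, Submodule.mkQ_apply, Submodule.Quotient.mk_eq_zero, smul_eq_mul]
      obtain ⟨a', ha', k, hk, rfl⟩ := Submodule.mem_sup.mp ha
      rw [mul_add]
      refine K.add_mem (hAB ?_) (K.mul_mem_left _ hk)
      rw [mul_comm b a']
      exact Ideal.mul_mem_mul ha' hb
    let F : Submodule.map K.mkQ (A ⊔ K) →ₗ[R] ((R ⧸ B) →ₗ[R] (R ⧸ K)) :=
      { toFun := fun z => Submodule.liftQ B (LinearMap.toSpanSingleton R (R ⧸ K) (z : R ⧸ K)) (hz z)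
        map_add' := by
          intro z w
          apply Submodule.linearMap_qext
          ext
          change (1 : R) • ((z + w : Submodule.map K.mkQ (A ⊔ K)) : R ⧸ K)
            = (1 : R) • (z : R ⧸ K) + (1 : R) • (w : R ⧸ K)
          rw [← smul_add]
          rfl
        map_smul' := by
          intro c z
          apply Submodule.linearMap_qext
          ext
          change (1 : R) • ((c • z : Submodule.map K.mkQ (A ⊔ K)) : R ⧸ K)
            = c • ((1 : R) • (z : R ⧸ K))
          rw [smul_comm c]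
          rfl }
    refine Module.length_le_of_injective F ?_
    intro z w hzw
    apply Subtype.ext
    have h5 := congrArg (fun h => h (Submodule.Quotient.mk 1)) hzw
    change (1 : R) • (z : R ⧸ K) = (1 : R) • (w : R ⧸ K) at h5
    rwa [one_smul, one_smul] at h5
  have h4 := length_hom_le (R := R) (M := R ⧸ K)
    (fun S _ _ hS => length_hom_simple_le K hK S hS) (R ⧸ B) hB
  rw [h1, add_comm]
  exact add_le_add h2 (h3.trans h4)

end Soc

section Fin

variable {R : Type u} [CommRing R] [IsLocalRing R] [IsNoetherianRing R]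

lemma isFiniteLength_of_radical (I : Ideal R) (hI : I.radical = maximalIdeal R) :
    IsFiniteLength R (R ⧸ I) := by
  rw [isFiniteLength_iff_isNoetherian_isArtinian]
  refine ⟨inferInstance, ?_⟩
  have hne : I ≠ ⊤ := by
    rintro rfl
    rw [Ideal.radical_top] at hI
    exact (maximalIdeal.isMaximal R).ne_top hI.symm
  have : Nontrivial (R ⧸ I) := Ideal.Quotient.nontrivial_iff.mpr hne
  have h1 : IsArtinianRing (R ⧸ I) := by
    rw [isArtinianRing_iff_isNoetherianRing_krullDimLE_zero]
    refine ⟨inferInstance, ?_⟩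
    refine Ring.krullDimLE_zero_iff.mpr ?_
    intro P hP
    have hPc : (P.comap (Ideal.Quotient.mk I)).IsPrime := Ideal.comap_isPrime _ _
    have hle : I ≤ P.comap (Ideal.Quotient.mk I) := by
      intro a ha
      rw [Ideal.mem_comap, Ideal.Quotient.eq_zero_iff_mem.mpr ha]
      exact P.zero_mem
    have hm : maximalIdeal R ≤ P.comap (Ideal.Quotient.mk I) := by
      rw [← hI]
      exact hPc.radical_le_iff.mpr hle
    have hmax : P.comap (Ideal.Quotient.mk I) = maximalIdeal R :=
      ((maximalIdeal.isMaximal R).eq_of_le hPc.ne_top hm).symm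
    have hPmax : (P.comap (Ideal.Quotient.mk I)).IsMaximal := hmax ▸ maximalIdeal.isMaximal R
    have h5 : ((P.comap (Ideal.Quotient.mk I)).map (Ideal.Quotient.mk I)).IsMaximal :=
      Ideal.IsMaximal.map_of_surjective_of_ker_le Ideal.Quotient.mk_surjective
        (by rw [Ideal.mk_ker]; exact hle)
    rwa [Ideal.map_comap_of_surjective _ Ideal.Quotient.mk_surjective] at h5
  have h2 : IsArtinian (R ⧸ I) (R ⧸ I) := h1
  exact isArtinian_of_surjective_algebraMap (R := R ⧸ I) (S := R) (M := R ⧸ I)
    Ideal.Quotient.mk_surjective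

end Fin

section Asym

open Filter Topology

variable {R : Type u} [CommRing R] [IsLocalRing R] [IsNoetherianRing R]

lemma radical_span_pow {d : ℕ} (x : Fin d → R) (q : ℕ) (hq : 1 ≤ q)
    (hx : (Ideal.span (Set.range x)).radical = maximalIdeal R) :
    (Ideal.span (Set.range fun i => x i ^ q)).radical = maximalIdeal R := by
  rw [← hx]
  apply le_antisymm
  · apply Ideal.radical_mono
    rw [Ideal.span_le]
    rintro _ ⟨i, rfl⟩
    exact Ideal.pow_mem_of_mem _ (Ideal.subset_span (Set.mem_range_self i)) q hq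
  · rw [Ideal.radical_le_radical_iff, Ideal.span_le]
    rintro _ ⟨i, rfl⟩
    exact ⟨q, Ideal.subset_span ⟨i, rfl⟩⟩

/-- `e(J) q^d ≤ ℓ(R/(x_1^q, …, x_d^q))`. -/
lemma mult_mul_pow_le {d : ℕ} (hd : 1 ≤ d) (x : Fin d → R)
    (hx : (Ideal.span (Set.range x)).radical = maximalIdeal R) (q : ℕ) (hq : 1 ≤ q) (eJ : ℝ)
    (h : Tendsto (fun n : ℕ => (d.factorial : ℝ)
      * ((Module.length R (R ⧸ (Ideal.span (Set.range x)) ^ n)).toNat : ℝ) / (n : ℝ) ^ d)
      atTop (𝓝 eJ)) :
    eJ * (q : ℝ) ^ d
      ≤ ((Module.length R (R ⧸ Ideal.span (Set.range fun i => x i ^ q))).toNat : ℝ) := by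
  set J := Ideal.span (Set.range x) with hJ
  set K := Ideal.span (Set.range fun i => x i ^ q) with hKdef
  have hKrad : K.radical = maximalIdeal R := radical_span_pow x q hq hx
  have hKfin : Module.length R (R ⧸ K) ≠ ⊤ :=
    Module.length_ne_top_iff.mpr (isFiniteLength_of_radical K hKrad)
  set L : ℕ := (Module.length R (R ⧸ K)).toNat with hL
  have hLc : Module.length R (R ⧸ K) = (L : ℕ∞) := (ENat.natCast_toNat hKfin).symm
  have hKJ : ∀ n, K ^ n ≤ J ^ (q * n) := by
    intro n
    rw [pow_mul]
    apply Ideal.pow_right_mono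
    rw [hKdef, Ideal.span_le]
    rintro _ ⟨i, rfl⟩
    exact Ideal.pow_mem_pow (Ideal.subset_span (Set.mem_range_self i)) q
  have h1 : ∀ n, (Module.length R (R ⧸ J ^ (q * n))).toNat ≤ (n + d - 1).choose d * L := by
    intro n
    have h2 : Module.length R (R ⧸ J ^ (q * n)) ≤ Module.length R (R ⧸ K ^ n) := by
      refine Module.length_le_of_surjective
        (Submodule.mapQ (K ^ n) (J ^ (q * n)) LinearMap.id (by simpa using hKJ n)) ?_
      intro y
      obtain ⟨y, rfl⟩ := Submodule.mkQ_surjective _ y
      exact ⟨Submodule.Quotient.mk y, by simp⟩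
    have h3 := h2.trans (length_quot_pow_le hd (fun i => x i ^ q) n)
    rw [← hKdef, hLc] at h3
    have h4 : Module.length R (R ⧸ J ^ (q * n)) ≤ (((n + d - 1).choose d * L : ℕ) : ℕ∞) := by
      push_cast
      exact h3
    have := ENat.toNat_le_toNat h4 (ENat.natCast_ne_top _)
    simpa using this
  have hsub : Tendsto (fun n : ℕ => q * n) atTop atTop :=
    tendsto_id.const_mul_atTop' (by omega)
  have h5 := h.comp hsub
  have hqpos : (0 : ℝ) < q := by exact_mod_cast hq
  have h6 : Tendsto (fun n : ℕ => (((n : ℝ) + d) / n) ^ d * (L / (q : ℝ) ^ d)) atTop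
      (𝓝 (1 ^ d * (L / (q : ℝ) ^ d))) := by
    apply Tendsto.mul_const
    apply Tendsto.pow
    have : Tendsto (fun n : ℕ => 1 + (d : ℝ) / n) atTop (𝓝 (1 + 0)) :=
      tendsto_const_nhds.add (tendsto_const_div_atTop_nhds_zero_nat _)
    rw [add_zero] at this
    refine this.congr' ?_
    filter_upwards [eventually_gt_atTop 0] with n hn
    have : (n : ℝ) ≠ 0 := by exact_mod_cast hn.ne'
    field_simp
  have h7 : eJ ≤ 1 ^ d * (L / (q : ℝ) ^ d) := by
    refine le_of_tendsto_of_tendsto h5 h6 ?_
    filter_upwards [eventually_gt_atTop 0] with n hn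
    have hn0 : (0 : ℝ) < n := by exact_mod_cast hn
    simp only [Function.comp_apply]
    push_cast
    rw [div_pow, mul_pow, div_mul_div_comm, mul_comm ((q : ℝ) ^ d)]
    apply div_le_div_of_nonneg_right _ (by positivity)
    have h8 : (d.factorial : ℝ) * ((Module.length R (R ⧸ J ^ (q * n))).toNat : ℝ)
        ≤ (d.factorial : ℝ) * (((n + d - 1).choose d : ℕ) * L) := by
      gcongr
      exact_mod_cast h1 n
    refine h8.trans ?_
    rw [← mul_assoc]
    apply mul_le_mul_of_nonneg_right _ (by positivity)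
    have h9 : d.factorial * (n + d - 1).choose d ≤ (n + d) ^ d := by
      rw [← Nat.descFactorial_eq_factorial_mul_choose]
      exact (Nat.descFactorial_le_pow _ _).trans (Nat.pow_le_pow_left (by omega) _)
    exact_mod_cast h9
  rw [one_pow, one_mul, le_div_iff₀ (by positivity)] at h7
  exact h7

/-- A uniform bound for a sequence with `d! b(n)/n^d → e`. -/
lemma exists_bound {d : ℕ} (b : ℕ → ℝ) (e ε : ℝ) (hε : 0 < ε)
    (h : Tendsto (fun n : ℕ => (d.factorial : ℝ) * b n / (n : ℝ) ^ d) atTop (𝓝 e)) :
    ∃ C : ℝ, ∀ n, b n ≤ (e + ε) / d.factorial * (n : ℝ) ^ d + C := by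
  have h1 : ∀ᶠ n : ℕ in atTop, (d.factorial : ℝ) * b n / (n : ℝ) ^ d < e + ε :=
    h.eventually (gt_mem_nhds (by linarith))
  obtain ⟨n0, hn0⟩ := eventually_atTop.mp h1
  set m := max n0 1
  refine ⟨∑ i ∈ Finset.range m, |b i - (e + ε) / d.factorial * (i : ℝ) ^ d|, fun n => ?_⟩
  by_cases hn : n < m
  · have h2 : b n - (e + ε) / d.factorial * (n : ℝ) ^ d
        ≤ ∑ i ∈ Finset.range m, |b i - (e + ε) / d.factorial * (i : ℝ) ^ d| :=
      (le_abs_self _).trans (Finset.single_le_sum
        (f := fun i => |b i - (e + ε) / d.factorial * (i : ℝ) ^ d|)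
        (fun i _ => abs_nonneg _) (Finset.mem_range.mpr hn))
    linarith
  · have hn1 : n0 ≤ n := (le_max_left _ _).trans (not_lt.mp hn)
    have hn2 : 1 ≤ n := (le_max_right _ _).trans (not_lt.mp hn)
    have h3 := hn0 n hn1
    have hnp : (0 : ℝ) < (n : ℝ) ^ d := by
      have : (0 : ℝ) < n := by exact_mod_cast hn2
      positivity
    have hfp : (0 : ℝ) < d.factorial := by exact_mod_cast d.factorial_pos
    rw [div_lt_iff₀ hnp] at h3
    have h4 : b n ≤ (e + ε) / d.factorial * (n : ℝ) ^ d := by
      rw [div_mul_eq_mul_div, le_div_iff₀ hfp]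
      linarith
    have h5 : 0 ≤ ∑ i ∈ Finset.range m, |b i - (e + ε) / d.factorial * (i : ℝ) ^ d| :=
      Finset.sum_nonneg (fun i _ => abs_nonneg _)
    linarith

/-- Main estimate for parameter ideals all of whose Frobenius-type powers are irreducible. -/
theorem main_estimate (p : ℕ) (hp : p.Prime) (d : ℕ) (hd : 1 ≤ d) (x : Fin d → R)
    (hx : (Ideal.span (Set.range x)).radical = maximalIdeal R)
    (hirr : ∀ e : ℕ, InfIrred (Ideal.span (Set.range fun i => x i ^ p ^ e)))
    (𝔞 : Ideal R) (h𝔞 : 𝔞.radical = maximalIdeal R) (c eJ ea : ℝ)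
    (hc : Tendsto (fun e : ℕ =>
        ((sInf {N : ℕ | 𝔞 ^ N ≤ Ideal.span (Set.range (fun i => x i ^ p ^ e))} : ℕ) : ℝ)
          / (p : ℝ) ^ e) atTop (𝓝 c))
    (hJ : Tendsto (fun n : ℕ => (d.factorial : ℝ)
        * ((Module.length R (R ⧸ (Ideal.span (Set.range x)) ^ n)).toNat : ℝ) / (n : ℝ) ^ d)
        atTop (𝓝 eJ))
    (ha : Tendsto (fun n : ℕ =>
        (d.factorial : ℝ) * ((Module.length R (R ⧸ 𝔞 ^ n)).toNat : ℝ) / (n : ℝ) ^ d)
        atTop (𝓝 ea)) :
    eJ ≤ 2 / (d.factorial : ℝ) * (c / 2) ^ d * ea := by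
  have hp2 : 2 ≤ p := hp.two_le
  set b : ℕ → ℝ := fun n => ((Module.length R (R ⧸ 𝔞 ^ n)).toNat : ℝ) with hb
  set N : ℕ → ℕ := fun e =>
    sInf {N : ℕ | 𝔞 ^ N ≤ Ideal.span (Set.range (fun i => x i ^ p ^ e))} with hN
  set k : ℕ → ℕ := fun e => N e / 2 with hk
  set l : ℕ → ℕ := fun e => N e - N e / 2 with hl
  have hppos : ∀ e : ℕ, 1 ≤ p ^ e := fun e => Nat.one_le_pow _ _ (by omega)
  have hrad : ∀ e : ℕ, (Ideal.span (Set.range fun i => x i ^ p ^ e)).radical = maximalIdeal R :=
    fun e => radical_span_pow x (p ^ e) (hppos e) hx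
  have hNmem : ∀ e, 𝔞 ^ N e ≤ Ideal.span (Set.range (fun i => x i ^ p ^ e)) := by
    intro e
    have hne : {N : ℕ | 𝔞 ^ N ≤ Ideal.span (Set.range (fun i => x i ^ p ^ e))}.Nonempty := by
      obtain ⟨n, hn⟩ := Ideal.exists_radical_pow_le_of_fg
        (Ideal.span (Set.range (fun i => x i ^ p ^ e))) (IsNoetherian.noetherian _)
      refine ⟨n, ?_⟩
      refine le_trans ?_ hn
      rw [hrad e, ← h𝔞]
      exact Ideal.pow_right_mono Ideal.le_radical n
    exact Nat.sInf_mem hne
  -- finite lengths
  have hafin : ∀ n, IsFiniteLength R (R ⧸ 𝔞 ^ n) := by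
    intro n
    rcases Nat.eq_zero_or_pos n with rfl | hn
    · have : Subsingleton (R ⧸ 𝔞 ^ 0) := by
        rw [pow_zero, Ideal.one_eq_top]
        infer_instance
      exact IsFiniteLength.of_subsingleton
    · apply isFiniteLength_of_radical
      rw [Ideal.radical_pow _ hn.ne', h𝔞]
  have hmain : ∀ e : ℕ, eJ * ((p : ℝ) ^ e) ^ d ≤ b (k e) + b (l e) := by
    intro e
    have h1 := mult_mul_pow_le hd x hx (p ^ e) (hppos e) eJ hJ
    have h2 : Module.length R (R ⧸ Ideal.span (Set.range fun i => x i ^ p ^ e))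
        ≤ Module.length R (R ⧸ 𝔞 ^ k e) + Module.length R (R ⧸ 𝔞 ^ l e) := by
      apply length_quot_le_add _ _ _ (hirr e) _ (hafin _)
      rw [← pow_add]
      have : k e + l e = N e := by simp only [hk, hl]; omega
      rw [this]
      exact hNmem e
    have h3 : (Module.length R (R ⧸ Ideal.span (Set.range fun i => x i ^ p ^ e))).toNat
        ≤ (Module.length R (R ⧸ 𝔞 ^ k e)).toNat + (Module.length R (R ⧸ 𝔞 ^ l e)).toNat := by
      have hf1 := Module.length_ne_top_iff.mpr (hafin (k e))
      have hf2 := Module.length_ne_top_iff.mpr (hafin (l e))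
      rw [← ENat.toNat_add hf1 hf2]
      apply ENat.toNat_le_toNat h2
      exact WithTop.add_ne_top.mpr ⟨hf1, hf2⟩
    push_cast at h1
    refine h1.trans ?_
    simp only [hb]
    exact_mod_cast h3
  have hpe : ∀ e : ℕ, (0 : ℝ) < (p : ℝ) ^ e := fun e => by positivity
  have hpeinf : Tendsto (fun e : ℕ => (p : ℝ) ^ e) atTop atTop :=
    tendsto_pow_atTop_atTop_of_one_lt (by exact_mod_cast hp2)
  have hkc : Tendsto (fun e : ℕ => (k e : ℝ) / (p : ℝ) ^ e) atTop (𝓝 (c / 2)) := by
    have h1 : Tendsto (fun e : ℕ => ((N e : ℝ) / (p : ℝ) ^ e) / 2) atTop (𝓝 (c / 2)) :=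
      hc.div_const 2
    have h2 : Tendsto (fun e : ℕ => ((N e : ℝ) / (p : ℝ) ^ e) / 2 - 1 / (p : ℝ) ^ e) atTop
        (𝓝 (c / 2 - 0)) :=
      h1.sub (tendsto_const_nhds.div_atTop hpeinf)
    rw [sub_zero] at h2
    refine tendsto_of_tendsto_of_tendsto_of_le_of_le h2 h1 ?_ ?_
    · intro e
      have h3 : ((N e : ℝ) / 2 - 1) ≤ (k e : ℝ) := by
        have : N e ≤ 2 * k e + 1 := by simp only [hk]; omega
        have : (N e : ℝ) ≤ 2 * k e + 1 := by exact_mod_cast this
        linarith
      have h4 : ((N e : ℝ) / (p : ℝ) ^ e) / 2 - 1 / (p : ℝ) ^ e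
          = ((N e : ℝ) / 2 - 1) / (p : ℝ) ^ e := by
        field_simp
      simp only
      rw [h4]
      exact div_le_div_of_nonneg_right h3 (hpe e).le
    · intro e
      have h3 : (k e : ℝ) ≤ (N e : ℝ) / 2 := by
        have : 2 * k e ≤ N e := by simp only [hk]; omega
        have : 2 * (k e : ℝ) ≤ N e := by exact_mod_cast this
        linarith
      have h4 : ((N e : ℝ) / (p : ℝ) ^ e) / 2 = ((N e : ℝ) / 2) / (p : ℝ) ^ e := by
        field_simp
      simp only
      rw [h4]
      exact div_le_div_of_nonneg_right h3 (hpe e).le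
  have hlc : Tendsto (fun e : ℕ => (l e : ℝ) / (p : ℝ) ^ e) atTop (𝓝 (c / 2)) := by
    have h1 := hc.sub hkc
    have h2 : c - c / 2 = c / 2 := by ring
    rw [h2] at h1
    refine h1.congr ?_
    intro e
    have h3 : (l e : ℝ) = (N e : ℝ) - k e := by
      have : k e ≤ N e := by simp only [hk]; omega
      simp only [hl]
      rw [Nat.cast_sub (Nat.div_le_self _ _)]
    rw [h3, sub_div]
  -- conclude with epsilon
  have hε : ∀ ε : ℝ, 0 < ε → eJ ≤ 2 / (d.factorial : ℝ) * (c / 2) ^ d * (ea + ε) := by
    intro ε hε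
    obtain ⟨C, hC⟩ := exists_bound b ea ε hε ha
    have h1 : Tendsto (fun e : ℕ =>
        ((ea + ε) / d.factorial * ((k e : ℝ) / (p : ℝ) ^ e) ^ d + C / ((p : ℝ) ^ e) ^ d)
        + ((ea + ε) / d.factorial * ((l e : ℝ) / (p : ℝ) ^ e) ^ d + C / ((p : ℝ) ^ e) ^ d))
        atTop (𝓝 (((ea + ε) / d.factorial * (c / 2) ^ d + 0)
          + ((ea + ε) / d.factorial * (c / 2) ^ d + 0))) := by
      have h0 : Tendsto (fun e : ℕ => C / ((p : ℝ) ^ e) ^ d) atTop (𝓝 0) := by
        apply tendsto_const_nhds.div_atTop
        exact (tendsto_pow_atTop (by omega)).comp hpeinf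
      exact (((hkc.pow d).const_mul _).add h0).add (((hlc.pow d).const_mul _).add h0)
    have h2 : eJ ≤ ((ea + ε) / d.factorial * (c / 2) ^ d + 0)
          + ((ea + ε) / d.factorial * (c / 2) ^ d + 0) := by
      refine ge_of_tendsto' h1 ?_
      intro e
      have h3 := hmain e
      have h4 := hC (k e)
      have h5 := hC (l e)
      have hpd : (0 : ℝ) < ((p : ℝ) ^ e) ^ d := by positivity
      have h6 : eJ ≤ (b (k e) + b (l e)) / ((p : ℝ) ^ e) ^ d := by
        rw [le_div_iff₀ hpd]
        exact h3
      refine h6.trans ?_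
      rw [add_div]
      apply add_le_add
      · rw [div_pow, ← mul_div_assoc, ← add_div]
        exact div_le_div_of_nonneg_right h4 hpd.le
      · rw [div_pow, ← mul_div_assoc, ← add_div]
        exact div_le_div_of_nonneg_right h5 hpd.le
    refine h2.trans (le_of_eq ?_)
    ring
  have hlim : Tendsto (fun ε : ℝ => 2 / (d.factorial : ℝ) * (c / 2) ^ d * (ea + ε)) (𝓝[>] 0)
      (𝓝 (2 / (d.factorial : ℝ) * (c / 2) ^ d * (ea + 0))) := by
    apply Tendsto.const_mul
    exact tendsto_const_nhds.add (tendsto_id.mono_left nhdsWithin_le_nhds)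
  rw [add_zero] at hlim
  refine ge_of_tendsto hlim ?_
  filter_upwards [self_mem_nhdsWithin] with ε hεp
  exact hε ε hεp

end Asym

/-- **A Huneke-Mustata-Takagi-Watanabe type bound for Gorenstein local rings.**
Let `R` be a Noetherian local ring of prime characteristic `p` and dimension `d ≥ 1` in which every
ideal generated by a system of parameters is irreducible (i.e. `R` is Gorenstein). For every ideal
`J` generated by a system of parameters and every `𝔪`-primary ideal `𝔞`,
`e(J) ≤ (2/d!) (c^J(𝔞)/2)^d e(𝔞)`. For `d = 2` this is `e(J) ≤ (c^J(𝔞)/2)^2 e(𝔞)`, the conjectured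
inequality. -/
theorem result :
    ∀ (R : Type u) [CommRing R] [IsLocalRing R] [IsNoetherianRing R]
      (p : ℕ) [Fact p.Prime] [CharP R p] (d : ℕ), 1 ≤ d →
      ringKrullDim R = ((d : ℕ∞) : WithBot ℕ∞) →
      (∀ y : Fin d → R, (Ideal.span (Set.range y)).radical = IsLocalRing.maximalIdeal R →
        InfIrred (Ideal.span (Set.range y))) →
      ∀ (x : Fin d → R), (∀ i, x i ∈ IsLocalRing.maximalIdeal R) →
        (Ideal.span (Set.range x)).radical = IsLocalRing.maximalIdeal R →
        ∀ (𝔞 : Ideal R), 𝔞.radical = IsLocalRing.maximalIdeal R →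
          ∀ (c eJ ea : ℝ),
            Filter.Tendsto
              (fun e : ℕ =>
                ((sInf {N : ℕ | 𝔞 ^ N ≤ Ideal.span (Set.range (fun i => x i ^ p ^ e))} : ℕ) : ℝ)
                  / (p : ℝ) ^ e)
              Filter.atTop (nhds c) →
            Filter.Tendsto
              (fun n : ℕ =>
                (d.factorial : ℝ)
                  * ((Module.length R (R ⧸ (Ideal.span (Set.range x)) ^ n)).toNat : ℝ)
                  / (n : ℝ) ^ d)
              Filter.atTop (nhds eJ) →
            Filter.Tendsto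
              (fun n : ℕ =>
                (d.factorial : ℝ) * ((Module.length R (R ⧸ 𝔞 ^ n)).toNat : ℝ) / (n : ℝ) ^ d)
              Filter.atTop (nhds ea) →
            eJ ≤ 2 / (d.factorial : ℝ) * (c / 2) ^ d * ea := by
  intro R _ _ _ p hp _ d hd _ hgor x _ hx 𝔞 h𝔞 c eJ ea hc hJ ha
  have hpp : p.Prime := hp.out
  refine main_estimate p hpp d hd x hx ?_ 𝔞 h𝔞 c eJ ea hc hJ ha
  intro e
  apply hgor
  exact radical_span_pow x (p ^ e) (Nat.one_le_pow _ _ hpp.pos) hx

end Pool.Agent.Results.MP_286f1f_ag.GorensteinBound
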